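import Mathlib
import Pool.Agent.H37.Sun.Prod

/-! The Legendre side: the truncated sum `Hh n` at `s ^ 2` modulo `p ^ 2` in terms of the Legendre
polynomials `T j z w`, where `4 w = z ^ 2 - 1` and `s ^ 2 - 2 z s + 1 = 0`. -/

namespace Pool.Agent.H8.Sun

open Polynomial Finset Pool.Agent.H37.Sun

section E0
variable {R : Type*} [CommRing R]

/-- Explicit formula for the shifted Legendre polynomial. -/
theorem T_leg (n : ℕ) (x : R) :
    T n (1 - 2 * x) (x ^ 2 - x)
      = ∑ k ∈ range (n + 1), (n.choose k : R) * ((n + k).choose n : R) * (-x) ^ k := by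
  have h1 : (X ^ 2 + C (1 - 2 * x) * X + C (x ^ 2 - x) : R[X]) ^ n
      = taylor (-x) ((X ^ 2 + X) ^ n) := by
    rw [taylor_apply]
    simp only [pow_comp, add_comp, X_comp]
    congr 1
    simp only [map_sub, map_mul, map_one, map_pow, map_neg, map_ofNat]
    ring
  unfold T
  rw [h1, taylor_coeff]
  have h2 : ((X ^ 2 + X : R[X]) ^ n)
      = ∑ k ∈ range (n + 1), monomial (n + k) (n.choose k : R) := by
    rw [show (X ^ 2 + X : R[X]) = X * (X + 1) by ring, mul_pow, add_pow, mul_sum]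
    refine sum_congr rfl fun k _ => ?_
    rw [← C_mul_X_pow_eq_monomial]
    simp only [one_pow, mul_one, map_natCast, pow_add]
    ring
  rw [h2, map_sum, eval_finsetSum]
  refine sum_congr rfl fun k _ => ?_
  rw [hasseDeriv_monomial, Nat.add_sub_cancel_left, eval_monomial]
  ring

theorem u_rec (n k : ℕ) (hk : k < n) :
    ((k : R) + 1) ^ 2 * ((n.choose (k + 1) : R) * ((n + (k + 1)).choose n : R))
      = ((n : R) - k) * (n + k + 1) * ((n.choose k : R) * ((n + k).choose n : R)) := by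
  have h1 := congrArg (Nat.cast : ℕ → R) (Nat.choose_succ_right_eq n k)
  have h2 := congrArg (Nat.cast : ℕ → R) (Nat.add_one_mul_choose_eq (n + k) k)
  have e1 : (n + (k + 1)).choose n = (n + k + 1).choose (k + 1) := by
    rw [Nat.choose_symm_add, add_assoc]
  have e2 : (n + k).choose n = (n + k).choose k := Nat.choose_symm_add
  rw [e1, e2]
  push_cast [Nat.cast_sub hk.le] at h1 h2
  linear_combination ((k : R) + 1) * ((n + k + 1).choose (k + 1) : R) * h1
    - (n.choose k : R) * ((n : R) - k) * h2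

theorem not_dvd_two_mul (p n : ℕ) (hn : p = 2 * n + 1) (hp : p.Prime) (k : ℕ) (h0 : 0 < k)
    (hk : k < p) : ¬ p ∣ 2 * k := by
  intro h
  rcases (Nat.Prime.dvd_mul hp).mp h with h | h
  · have := Nat.le_of_dvd (by norm_num) h
    have := hp.two_le
    omega
  · have := Nat.le_of_dvd h0 h
    omega

theorem v_cong (p n : ℕ) (hp : p.Prime) (hn : p = 2 * n + 1) (k : ℕ) (hk : k ≤ n) :
    (p : R) ^ 2 ∣ (v n k : R)
      - 16 ^ n * ((n.choose k : R) * ((n + k).choose n : R) * (-1) ^ k) := by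
  induction k with
  | zero => simp [v]
  | succ k ih =>
    obtain ⟨c, hc⟩ := ih (by omega)
    apply dvd_cancel_nat p hp (2 * (k + 1))
      (not_dvd_two_mul p n hn hp (k + 1) (by omega) (by omega))
    have hv := v_rec' (R := R) n k (by omega)
    have hu := u_rec (R := R) n k (by omega)
    have hpR : (p : R) = 2 * n + 1 := by rw [hn]; push_cast; ring
    refine ⟨(2 * k + 1) ^ 2 * c
      + 16 ^ n * ((n.choose k : R) * ((n + k).choose n : R) * (-1) ^ k), ?_⟩
    rw [hpR] at hc ⊢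
    push_cast
    linear_combination hv + (2 * (k : R) + 1) ^ 2 * hc + 4 * 16 ^ n * (-1) ^ k * hu

/-- Part E0. -/
theorem E0 (p n : ℕ) (hp : p.Prime) (hn : p = 2 * n + 1) (x : R) :
    (p : R) ^ 2 ∣ (Hh n : R[X]).eval x - 16 ^ n * T n (1 - 2 * x) (x ^ 2 - x) := by
  rw [T_leg]
  unfold Hh
  rw [eval_finsetSum, mul_sum, ← sum_sub_distrib]
  refine dvd_sum fun k hk => ?_
  have h := (v_cong (R := R) p n hp hn k (by have := mem_range.mp hk; omega)).mul_right (x ^ k)
  rw [eval_mul, eval_C, eval_pow, eval_X, neg_pow x k]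
  have e : (v n k : R) * x ^ k
      - 16 ^ n * ((n.choose k : R) * ((n + k).choose n : R) * ((-1) ^ k * x ^ k))
      = ((v n k : R) - 16 ^ n * ((n.choose k : R) * ((n + k).choose n : R) * (-1) ^ k)) * x ^ k := by
    ring
  rw [e]
  exact h

end E0

section series
variable {R : Type*} [CommRing R]

/-- The geometric series. -/
noncomputable def geo (x : R) : PowerSeries R := PowerSeries.mk fun k => x ^ k

theorem geo_mul (x : R) : (1 - PowerSeries.C x * PowerSeries.X) * geo x = 1 := by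
  ext k
  rw [sub_mul, one_mul, mul_assoc, map_sub, PowerSeries.coeff_C_mul]
  rcases k with _ | k
  · rw [PowerSeries.coeff_zero_X_mul]
    simp [geo]
  · rw [PowerSeries.coeff_succ_X_mul]
    unfold geo
    rw [PowerSeries.coeff_mk, PowerSeries.coeff_mk, PowerSeries.coeff_one, if_neg (by omega)]
    ring

theorem coeff_geo_pow (n k : ℕ) (x : R) :
    PowerSeries.coeff k (geo x ^ (n + 1)) = x ^ k * ((n + k).choose n : R) := by
  have h : geo x = PowerSeries.rescale x (PowerSeries.mk 1) := by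
    unfold geo
    rw [PowerSeries.rescale_mk]
    simp
  rw [h, ← map_pow, PowerSeries.mk_one_pow_eq_mk_choose_add, PowerSeries.coeff_rescale,
    PowerSeries.coeff_mk]

theorem coeff_one_sub_pow (n k : ℕ) (hk : k ≤ n) :
    PowerSeries.coeff (n - k) ((1 - PowerSeries.X : PowerSeries R) ^ n)
      = (-1) ^ n * ((-1) ^ k * (n.choose k : R)) := by
  have h : ((1 - PowerSeries.X : PowerSeries R) ^ n)
      = ((C ((-1) ^ n) * (X + C (-1)) ^ n : R[X]) : PowerSeries R) := by
    rw [show (C ((-1) ^ n) * (X + C (-1)) ^ n : R[X]) = (1 - X) ^ n by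
      rw [C_pow, ← mul_pow]
      congr 1
      simp only [map_neg, map_one]
      ring]
    rw [Polynomial.coe_pow, Polynomial.coe_sub, Polynomial.coe_one, Polynomial.coe_X]
  rw [h, Polynomial.coeff_coe, coeff_C_mul, coeff_X_add_C_pow]
  rw [show n - (n - k) = k by omega, Nat.choose_symm hk]

/-- The coefficient of `t ^ n` in `(1 - t) ^ n (1 - x t) ^ (- n - 1)`. -/
theorem coeff_F (n : ℕ) (x : R) :
    PowerSeries.coeff n (geo x ^ (n + 1) * (1 - PowerSeries.X) ^ n)
      = (-1) ^ n * T n (1 - 2 * x) (x ^ 2 - x) := by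
  rw [T_leg, PowerSeries.coeff_mul, mul_sum]
  rw [Finset.Nat.sum_antidiagonal_eq_sum_range_succ
    (fun i j => PowerSeries.coeff i (geo x ^ (n + 1))
      * PowerSeries.coeff j ((1 - PowerSeries.X : PowerSeries R) ^ n)) n]
  refine sum_congr rfl fun k hk => ?_
  rw [coeff_geo_pow, coeff_one_sub_pow n k (by have := mem_range.mp hk; omega), neg_pow x k]
  ring

theorem dT_geo (x : R) : dT (geo x) = PowerSeries.C x * geo x ^ 2 := by
  have h := congrArg dT (geo_mul x)
  rw [dT_mul, dT_sub, dT_one, dT_mul, dT_C, dT_X] at h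
  have g := geo_mul x
  have : dT (geo x) = ((1 - PowerSeries.C x * PowerSeries.X) * geo x) * dT (geo x) := by
    rw [g, one_mul]
  rw [this]
  linear_combination geo x * h

theorem dT_geo_pow (x : R) (m : ℕ) :
    dT (geo x ^ m) = (m : PowerSeries R) * PowerSeries.C x * geo x ^ (m + 1) := by
  induction m with
  | zero =>
    rw [pow_zero, dT_one, Nat.cast_zero]
    ring
  | succ m ih =>
    rw [pow_succ, dT_mul, ih, dT_geo]
    push_cast
    ring

theorem dT_one_sub_pow (m : ℕ) :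
    dT ((1 - PowerSeries.X : PowerSeries R) ^ (m + 1))
      = -((m : PowerSeries R) + 1) * (1 - PowerSeries.X) ^ m := by
  induction m with
  | zero =>
    rw [zero_add, pow_one, dT_sub, dT_one, dT_X, Nat.cast_zero]
    ring
  | succ m ih =>
    rw [pow_succ, dT_mul, ih, dT_sub, dT_one, dT_X]
    push_cast
    ring

/-- The differential equation of `U = F / A`. -/
theorem ode_U (n : ℕ) (x : R) (A : PowerSeries R)
    (hA : (1 - PowerSeries.X) * (1 - PowerSeries.C x * PowerSeries.X) * A ^ 2 = 1) :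
    2 * dT ((1 - PowerSeries.X) ^ (n + 1) * geo x ^ n * A)
      = (2 * (n : PowerSeries R) + 1) * ((PowerSeries.C x * geo x - geo 1)
        * ((1 - PowerSeries.X) ^ (n + 1) * geo x ^ n * A)) := by
  have g1 := geo_mul (1 : R)
  have gx := geo_mul x
  rw [map_one, one_mul] at g1
  set G1 := geo (1 : R) with hG1
  set G := geo x with hG
  set Y : PowerSeries R := PowerSeries.X with hY
  set c : PowerSeries R := PowerSeries.C x with hc
  have h := congrArg dT hA
  rw [dT_mul, dT_mul, dT_sub, dT_sub, dT_one, pow_two A, dT_mul, dT_mul, hc, dT_C, dT_X, ← hc] at h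
  have hdA : 2 * dT A = (G1 + c * G) * A := by
    have e : 2 * dT A = ((1 - Y) * (1 - c * Y) * A ^ 2) * (2 * dT A) * (((1 - Y) * G1) * ((1 - c * Y) * G)) := by
      rw [hA, g1, gx]
      ring
    have e2 : (G1 + c * G) * A = ((1 - Y) * (1 - c * Y) * A ^ 2) * A
        * (G1 * ((1 - c * Y) * G) + c * G * ((1 - Y) * G1)) := by
      rw [hA, g1, gx]
      ring
    rw [e, e2]
    linear_combination (1 - Y) * (1 - c * Y) * A * G1 * G * h
  have e3 : 2 * dT ((1 - Y) ^ (n + 1) * G ^ n * A)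
      = (2 * dT ((1 - Y) ^ (n + 1))) * (G ^ n * A) + (1 - Y) ^ (n + 1) * (2 * dT (G ^ n)) * A
        + (1 - Y) ^ (n + 1) * G ^ n * (2 * dT A) := by
    rw [dT_mul, dT_mul]
    ring
  rw [e3, hdA, hG, dT_geo_pow, ← hG, dT_one_sub_pow, ← hc]
  have e4 : (1 - Y) ^ n = (1 - Y) ^ (n + 1) * G1 := by
    rw [pow_succ, mul_assoc, g1, mul_one]
  rw [e4]
  ring

end series

section E1
variable {R : Type*} [CommRing R]

theorem dvd_cancel_one (p : ℕ) (hp : p.Prime) (j : ℕ) (hj : ¬ p ∣ j) (c : R)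
    (h : (p : R) ∣ (j : R) * c) : (p : R) ∣ c := by
  have hcop : Nat.Coprime p j := (Nat.Prime.coprime_iff_not_dvd hp).mpr hj
  obtain ⟨a, b, hab⟩ := Nat.isCoprime_iff_coprime.mpr hcop
  have h1 := congrArg (Int.cast : ℤ → R) hab
  push_cast at h1
  have : c = a * (p : R) * c + b * ((j : R) * c) := by
    linear_combination -c * h1
  rw [this]
  refine dvd_add ?_ (h.mul_left _)
  exact ⟨a * c, by ring⟩

/-- Coefficients of `U` modulo `p ^ 2`. -/
theorem coeff_U (p n : ℕ) (hp : p.Prime) (hn : p = 2 * n + 1) (x : R) (U : PowerSeries R)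
    (h0 : PowerSeries.coeff 0 U = 1)
    (hU : 2 * dT U = (2 * (n : PowerSeries R) + 1) * ((PowerSeries.C x * geo x - geo 1) * U)) :
    (∀ i, 0 < i → i < p → (p : R) ∣ PowerSeries.coeff i U) ∧
    (∀ i, 0 < i → i < p →
      (p : R) ^ 2 ∣ 2 * (i : R) * PowerSeries.coeff i U - p * (x ^ i - 1)) := by
  have hpR : PowerSeries.C (p : R) = (2 * (n : PowerSeries R) + 1) := by
    rw [map_natCast, hn]; push_cast; ring
  rw [← hpR] at hU
  have hc : ∀ k, 2 * (PowerSeries.coeff (k + 1) U * ((k : R) + 1))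
      = (p : R) * PowerSeries.coeff k ((PowerSeries.C x * geo x - geo 1) * U) := by
    intro k
    have h := congrArg (PowerSeries.coeff k) hU
    rw [PowerSeries.coeff_C_mul] at h
    rw [← h, show (2 : PowerSeries R) = PowerSeries.C (2 : R) from
        (map_ofNat (PowerSeries.C (R := R)) 2).symm, PowerSeries.coeff_C_mul, coeff_dT]
  have h1 : ∀ i, 0 < i → i < p → (p : R) ∣ PowerSeries.coeff i U := by
    intro i hi hip
    obtain ⟨k, rfl⟩ : ∃ k, i = k + 1 := ⟨i - 1, by omega⟩
    apply dvd_cancel_one p hp (2 * (k + 1)) (not_dvd_two_mul p n hn hp (k + 1) hi hip)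
    refine ⟨PowerSeries.coeff k ((PowerSeries.C x * geo x - geo 1) * U), ?_⟩
    rw [← hc k]
    push_cast
    ring
  refine ⟨h1, ?_⟩
  intro i hi hip
  obtain ⟨k, rfl⟩ : ∃ k, i = k + 1 := ⟨i - 1, by omega⟩
  have e : 2 * (((k + 1 : ℕ) : R)) * PowerSeries.coeff (k + 1) U
      = (p : R) * PowerSeries.coeff k ((PowerSeries.C x * geo x - geo 1) * U) := by
    rw [← hc k]
    push_cast
    ring
  rw [e, ← mul_sub, pow_two]
  apply mul_dvd_mul_left
  rw [PowerSeries.coeff_mul,
    Finset.Nat.sum_antidiagonal_eq_sum_range_succ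
    (fun i j => PowerSeries.coeff i (PowerSeries.C x * geo x - geo 1)
      * PowerSeries.coeff j U) k, sum_range_succ, Nat.sub_self, h0]
  have e2 : PowerSeries.coeff k (PowerSeries.C x * geo x - geo 1) = x ^ (k + 1) - 1 := by
    rw [map_sub, PowerSeries.coeff_C_mul]
    unfold geo
    rw [PowerSeries.coeff_mk, PowerSeries.coeff_mk]
    ring
  rw [e2, mul_one, add_sub_cancel_right]
  refine dvd_sum fun j hj => ?_
  have := mem_range.mp hj
  exact (h1 (k - j) (by omega) (by omega)).mul_left _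

theorem coeff_A (z w s : R) [IsDomain R] [CharZero R] (hw : 4 * w = z ^ 2 - 1)
    (hs : s ^ 2 - 2 * z * s + 1 = 0) :
    (1 - PowerSeries.X) * (1 - PowerSeries.C (s ^ 2) * PowerSeries.X)
      * (PowerSeries.mk fun j => s ^ j * T j z w) ^ 2 = (1 : PowerSeries R) := by
  have h := congrArg (PowerSeries.rescale s) (genT z w)
  rw [map_mul, map_pow, map_one, PowerSeries.rescale_mk, map_add, map_sub, map_one, map_mul,
    map_mul, map_mul, map_pow, PowerSeries.rescale_X] at h
  have e1 : z ^ 2 - 4 * w = 1 := by rw [hw]; ring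
  rw [e1] at h
  have e2 : (PowerSeries.rescale s) (2 : PowerSeries R) = 2 := map_ofNat _ 2
  rw [map_one, map_one, e2] at h
  have e3 : ∀ r : R, PowerSeries.rescale s (PowerSeries.C r) = PowerSeries.C r := by
    intro r
    ext k
    rw [PowerSeries.coeff_rescale, PowerSeries.coeff_C]
    split_ifs with hk
    · rw [hk, pow_zero, one_mul]
    · rw [mul_zero]
  rw [e3] at h
  have e4 : (PowerSeries.C s : PowerSeries R) ^ 2 - 2 * PowerSeries.C z * PowerSeries.C s + 1 = 0 := by
    have := congrArg (PowerSeries.C (R := R)) hs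
    simpa only [map_add, map_sub, map_mul, map_pow, map_one, map_zero, map_ofNat] using this
  rw [map_pow]
  linear_combination h - (PowerSeries.X * (PowerSeries.mk fun j => s ^ j * T j z w) ^ 2) * e4

/-- Part E1. -/
theorem E1 [IsDomain R] [CharZero R] (p n : ℕ) (hp : p.Prime) (hn : p = 2 * n + 1) (z w s : R)
    (hw : 4 * w = z ^ 2 - 1) (hs : s ^ 2 - 2 * z * s + 1 = 0) (r : ℕ → R)
    (hr : ∀ j, j < n → (2 * (j : R) + 1) * r j = T j z w) :
    (p : R) ^ 2 ∣ (-1) ^ n * (Hh n : R[X]).eval (s ^ 2)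
      - 16 ^ n * (s ^ n * T n z w - p * ∑ j ∈ range n, (s ^ (2 * n - j) - s ^ j) * r j) := by
  set A : PowerSeries R := PowerSeries.mk fun j => s ^ j * T j z w with hA
  have hAA := coeff_A z w s hw hs
  rw [← hA] at hAA
  have hode := ode_U n (s ^ 2) A hAA
  set U : PowerSeries R := (1 - PowerSeries.X) ^ (n + 1) * geo (s ^ 2) ^ n * A with hU
  have hc : ∀ (x : R), PowerSeries.constantCoeff (geo x) = 1 := by
    intro x
    rw [← PowerSeries.coeff_zero_eq_constantCoeff_apply]
    unfold geo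
    rw [PowerSeries.coeff_mk, pow_zero]
  have hA0 : PowerSeries.constantCoeff A = 1 := by
    rw [← PowerSeries.coeff_zero_eq_constantCoeff_apply, hA, PowerSeries.coeff_mk, pow_zero,
      T_zero, one_mul]
  have hU0 : PowerSeries.coeff 0 U = 1 := by
    rw [PowerSeries.coeff_zero_eq_constantCoeff_apply, hU, map_mul, map_mul, map_pow, map_pow,
      map_sub, map_one, PowerSeries.constantCoeff_X, hc, hA0]
    simp
  obtain ⟨c1, c2⟩ := coeff_U p n hp hn (s ^ 2) U hU0 hode
  have hF : geo (s ^ 2) ^ (n + 1) * (1 - PowerSeries.X) ^ n = A * U := by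
    have g := geo_mul (s ^ 2)
    have e : geo (s ^ 2) ^ (n + 1) * (1 - PowerSeries.X) ^ n
        = geo (s ^ 2) ^ (n + 1) * (1 - PowerSeries.X) ^ n
          * ((1 - PowerSeries.X) * (1 - PowerSeries.C (s ^ 2) * PowerSeries.X) * A ^ 2) := by
      rw [hAA, mul_one]
    rw [e, hU]
    linear_combination (geo (s ^ 2) ^ n * (1 - PowerSeries.X) ^ (n + 1) * A ^ 2) * g
  have h1 := coeff_F n (s ^ 2)
  rw [hF, PowerSeries.coeff_mul, Finset.Nat.sum_antidiagonal_eq_sum_range_succ
    (fun i j => PowerSeries.coeff i A * PowerSeries.coeff j U) n, sum_range_succ, Nat.sub_self,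
    hU0, mul_one] at h1
  have hcA : ∀ j, PowerSeries.coeff j A = s ^ j * T j z w := fun j => by
    rw [hA, PowerSeries.coeff_mk]
  have h2 : (p : R) ^ 2 ∣ ∑ j ∈ range n, (PowerSeries.coeff j A * PowerSeries.coeff (n - j) U
      + p * ((s ^ (2 * n - j) - s ^ j) * r j)) := by
    refine dvd_sum fun j hj => ?_
    have hj := mem_range.mp hj
    apply dvd_cancel_nat p hp (2 * j + 1) (fun h => by
      have := Nat.le_of_dvd (by omega) h
      omega)
    obtain ⟨a, ha⟩ := c1 (n - j) (by omega) (by omega)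
    obtain ⟨b, hb⟩ := c2 (n - j) (by omega) (by omega)
    have hrj := hr j hj
    rw [hcA]
    have e1 : s ^ (2 * n - j) = (s ^ 2) ^ (n - j) * s ^ j := by
      rw [← pow_mul, ← pow_add]
      congr 1
      omega
    have e2 : 2 * ((n - j : ℕ) : R) = p - (2 * (j : R) + 1) := by
      rw [Nat.cast_sub hj.le, hn]
      push_cast
      ring
    rw [e2] at hb
    rw [e1]
    push_cast
    set u := PowerSeries.coeff (n - j) U
    refine ⟨(2 * (j : R) + 1) * (s ^ j * T j z w * a - s ^ j * T j z w * b), ?_⟩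
    linear_combination (2 * (j : R) + 1) * (p : R) * ((s ^ 2) ^ (n - j) * s ^ j - s ^ j) * hrj
      - (2 * (j : R) + 1) * s ^ j * T j z w * hb + (2 * (j : R) + 1) * s ^ j * T j z w * p * ha
  rw [sum_add_distrib, ← mul_sum] at h2
  have h3 := E0 (R := R) p n hp hn (s ^ 2)
  obtain ⟨a, ha⟩ := h2
  obtain ⟨b, hb⟩ := h3
  rw [hcA n] at h1
  rw [show (s ^ 2 : R) ^ 2 - s ^ 2 = (s ^ 2) ^ 2 - s ^ 2 from rfl] at hb
  refine ⟨(-1) ^ n * b + 16 ^ n * a, ?_⟩
  linear_combination (-1) ^ n * hb + 16 ^ n * ha - 16 ^ n * h1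

theorem sixteen_cong (p n : ℕ) (hp : p.Prime) (hn : p = 2 * n + 1) :
    (p : R) ∣ 16 ^ n - 1 := by
  have : Fact p.Prime := ⟨hp⟩
  have h : ((16 ^ n - 1 : ℤ) : ZMod p) = 0 := by
    have h4 : ((4 : ℕ) : ZMod p) ≠ 0 := by
      rw [Ne, CharP.cast_eq_zero_iff (ZMod p) p]
      intro h
      have h5 : p ∣ 2 ^ 2 := by simpa using h
      have := Nat.Prime.dvd_of_dvd_pow hp h5
      have := (Nat.prime_dvd_prime_iff_eq hp Nat.prime_two).mp this
      omega
    have := ZMod.pow_card_sub_one_eq_one h4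
    rw [show p - 1 = 2 * n by omega, pow_mul] at this
    push_cast at this ⊢
    rw [show (4 : ZMod p) ^ 2 = 16 by norm_num] at this
    rw [this, sub_self]
  have h2 := (ZMod.intCast_zmod_eq_zero_iff_dvd _ p).mp h
  obtain ⟨c, hc⟩ := h2
  refine ⟨(c : R), ?_⟩
  have := congrArg (Int.cast : ℤ → R) hc
  push_cast at this
  exact this

/-- Part E1 modulo `p`. -/
theorem E1_modp [IsDomain R] [CharZero R] (p n : ℕ) (hp : p.Prime) (hn : p = 2 * n + 1)
    (z w s : R) (hw : 4 * w = z ^ 2 - 1) (hs : s ^ 2 - 2 * z * s + 1 = 0) (r : ℕ → R)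
    (hr : ∀ j, j < n → (2 * (j : R) + 1) * r j = T j z w) :
    (p : R) ∣ (Hh n : R[X]).eval (s ^ 2) - (-1) ^ n * (s ^ n * T n z w) := by
  obtain ⟨a, ha⟩ := E1 p n hp hn z w s hw hs r hr
  obtain ⟨b, hb⟩ := sixteen_cong (R := R) p n hp hn
  have h1 : ((-1 : R)) ^ n * (-1) ^ n = 1 := by rw [← mul_pow]; norm_num
  refine ⟨(-1) ^ n * (p * a - 16 ^ n * ∑ j ∈ range n, (s ^ (2 * n - j) - s ^ j) * r j)
    + (-1) ^ n * (s ^ n * T n z w) * b, ?_⟩
  linear_combination (-1) ^ n * ha + (-1) ^ n * (s ^ n * T n z w) * hb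
    - (Hh n : R[X]).eval (s ^ 2) * h1

end E1

end Pool.Agent.H8.Sun
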