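import Mathlib
import Pool.Agent.H8.Sun.E
import Pool.Agent.H37.Sun.Cv16

/-! The Legendre side in the form used by the assembly. -/

namespace Pool.Agent.H8.Sun

theorem legSide {R : Type*} [CommRing R] [IsDomain R] [CharZero R] (p n : ℕ) (hp : p.Prime)
    (hn : p = 2 * n + 1) : Pool.Agent.H37.Sun.LegSide R p n :=
  ⟨E0 p n hp hn, fun z w x r h1 h2 h3 => E1 p n hp hn z w x h1 h2 r h3⟩

end Pool.Agent.H8.Sun
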